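import Pool.Agent.helper51.QS.SpecB

/-!
# Project qs (MP_74cfa5_ag), row ETC: derivatives of an element in terms of derivatives of invariants
-/

set_option autoImplicit false

namespace Pool.Agent.QS

open Pool.Agent.PC

universe u

section aux

variable {k R A K G : Type u} [Field k] [CommRing R] [CommRing A] [IsDomain A] [Algebra k A] [Algebra R A]
  [Field K] [Algebra k K] [Algebra A K] [IsScalarTower k A K] [IsFractionRing A K] [Group G] [Finite G]
  [MulSemiringAction G A] [SMulCommClass G R A] [Algebra.IsInvariant R A G]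

variable (K) in
omit [IsDomain A] in
theorem ETC_ne {Q : Ideal A} {s : A} (hs : s ∉ Q) : algebraMap A K s ≠ 0 := by
  intro h
  apply hs
  rw [(map_eq_zero_iff _ (IsFractionRing.injective A K)).mp h]
  exact Q.zero_mem

variable (K) in
/-- the local ring at `Q`, as a subring of `K` -/
def ETC_O (Q : Ideal A) (hQ : Q.IsPrime) : Subring K where
  carrier := {z | ∃ x s : A, s ∉ Q ∧ z = algebraMap A K x / algebraMap A K s}
  zero_mem' := ⟨0, 1, fun h => hQ.ne_top (Q.eq_top_of_isUnit_mem h isUnit_one), by simp⟩
  one_mem' := ⟨1, 1, fun h => hQ.ne_top (Q.eq_top_of_isUnit_mem h isUnit_one), by simp⟩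
  add_mem' := by
    rintro _ _ ⟨x, s, hs, rfl⟩ ⟨y, t, ht, rfl⟩
    refine ⟨x * t + s * y, s * t, fun h => (hQ.mem_or_mem h).elim hs ht, ?_⟩
    rw [div_add_div _ _ (ETC_ne K hs) (ETC_ne K ht)]
    simp only [map_add, map_mul]
  mul_mem' := by
    rintro _ _ ⟨x, s, hs, rfl⟩ ⟨y, t, ht, rfl⟩
    refine ⟨x * y, s * t, fun h => (hQ.mem_or_mem h).elim hs ht, ?_⟩
    rw [div_mul_div_comm, map_mul, map_mul]
  neg_mem' := by
    rintro _ ⟨x, s, hs, rfl⟩
    exact ⟨-x, s, hs, by rw [map_neg, neg_div]⟩

theorem ETC_memO {Q : Ideal A} (hQ : Q.IsPrime) (x : A) : algebraMap A K x ∈ ETC_O K Q hQ :=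
  ⟨x, 1, fun h => hQ.ne_top (Q.eq_top_of_isUnit_mem h isUnit_one), by simp⟩

theorem ETC_invO {Q : Ideal A} (hQ : Q.IsPrime) {s : A} (hs : s ∉ Q) :
    (algebraMap A K s)⁻¹ ∈ ETC_O K Q hQ := ⟨1, s, hs, by simp⟩

omit [IsDomain A] [Finite G] [SMulCommClass G R A] in
/-- invariant polynomials come from `R` -/
theorem ETC_lift (p : Polynomial A)
    (hp : ∀ g : G, p.map (MulSemiringAction.toRingHom G A g) = p) :
    ∃ p0 : Polynomial R, p0.map (algebraMap R A) = p := by
  have h1 : p ∈ Polynomial.lifts (algebraMap R A) := by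
    rw [Polynomial.lifts_iff_coeff_lifts]
    intro n
    refine Algebra.IsInvariant.isInvariant (A := R) (B := A) (G := G) _ fun g => ?_
    have h2 := congrArg (fun q : Polynomial A => q.coeff n) (hp g)
    simp only [Polynomial.coeff_map] at h2
    exact h2
  exact (Polynomial.mem_lifts _).mp h1

end aux

theorem ETC : ETC_stmt.{u} := by
  intro k R A K G _ _ _ _ _ _ _ _ _ _ _ _ _ _ _ _ Q hQ b hb a
  classical
  cases nonempty_fintype G
  set O : Subring K := ETC_O K Q hQ with hO
  let δ : K → (Derivation k K K → K) := fun x D => D x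
  let Ω : Submodule O (Derivation k K K → K) :=
    Submodule.span O (Set.range fun r : R => δ (algebraMap A K (algebraMap R A r)))
  have hδmul : ∀ x y : K, δ (x * y) = x • δ y + y • δ x := by
    intro x y
    funext D
    exact D.leibniz x y
  have hδadd : ∀ x y : K, δ (x + y) = δ x + δ y := by
    intro x y
    funext D
    exact map_add D x y
  have hsm : ∀ (x : K), x ∈ O → ∀ ω ∈ Ω, x • ω ∈ Ω := fun x hx ω hω => Ω.smul_mem (⟨x, hx⟩ : O) hω
  have hR : ∀ r : R, δ (algebraMap A K (algebraMap R A r)) ∈ Ω := fun r =>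
    Submodule.subset_span ⟨r, rfl⟩
  -- the chain rule modulo `Ω`
  have hchain : ∀ p : Polynomial R, δ (algebraMap A K (Polynomial.aeval b p)) -
      algebraMap A K (Polynomial.aeval b (Polynomial.derivative p)) • δ (algebraMap A K b) ∈ Ω := by
    intro p
    induction p using Polynomial.induction_on' with
    | add p q hp hq =>
      have h1 : δ (algebraMap A K (Polynomial.aeval b (p + q))) -
          algebraMap A K (Polynomial.aeval b (Polynomial.derivative (p + q))) • δ (algebraMap A K b) =
          (δ (algebraMap A K (Polynomial.aeval b p)) -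
            algebraMap A K (Polynomial.aeval b (Polynomial.derivative p)) • δ (algebraMap A K b)) +
          (δ (algebraMap A K (Polynomial.aeval b q)) -
            algebraMap A K (Polynomial.aeval b (Polynomial.derivative q)) • δ (algebraMap A K b)) := by
        rw [map_add, map_add, hδadd, map_add, map_add, map_add, add_smul]
        abel
      rw [h1]
      exact Ω.add_mem hp hq
    | monomial n r =>
      have h1 : δ (algebraMap A K (Polynomial.aeval b (Polynomial.monomial n r))) -
          algebraMap A K (Polynomial.aeval b (Polynomial.derivative (Polynomial.monomial n r))) •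
            δ (algebraMap A K b) = algebraMap A K (b ^ n) • δ (algebraMap A K (algebraMap R A r)) := by
        funext D
        rw [Polynomial.aeval_monomial, Polynomial.derivative_monomial, Polynomial.aeval_monomial]
        show D (algebraMap A K (algebraMap R A r * b ^ n)) -
          algebraMap A K (algebraMap R A (r * (n : R)) * b ^ (n - 1)) * D (algebraMap A K b) =
          algebraMap A K (b ^ n) * D (algebraMap A K (algebraMap R A r))
        rw [map_mul (algebraMap A K), map_pow (algebraMap A K), D.leibniz, D.leibniz_pow]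
        simp only [map_mul, map_natCast, map_pow, smul_eq_mul, nsmul_eq_mul]
        ring
      rw [h1]
      exact hsm _ (ETC_memO hQ _) _ (hR r)
  -- the characteristic polynomial
  set f : Polynomial A := ∏ g : G, (Polynomial.X - Polynomial.C (g • b)) with hf
  obtain ⟨f0, hf0⟩ := ETC_lift (R := R) (G := G) f (by
    intro s
    rw [hf, Polynomial.map_prod]
    refine Fintype.prod_equiv (Equiv.mulLeft s) _ _ fun g => ?_
    rw [Polynomial.map_sub, Polynomial.map_X, Polynomial.map_C]
    show Polynomial.X - Polynomial.C (s • (g • b)) = Polynomial.X - Polynomial.C ((s * g) • b)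
    rw [mul_smul])
  set h : Polynomial A := ∑ g : G, Polynomial.C (g • a) *
    ∏ g' ∈ Finset.univ.erase g, (Polynomial.X - Polynomial.C (g' • b)) with hh
  obtain ⟨h0, hh0⟩ := ETC_lift (R := R) (G := G) h (by
    intro s
    rw [hh, Polynomial.map_sum]
    refine Fintype.sum_equiv (Equiv.mulLeft s) _ _ fun g => ?_
    rw [Polynomial.map_mul, Polynomial.map_C, Polynomial.map_prod]
    have e1 : (MulSemiringAction.toRingHom G A s) (g • a) = (s * g) • a := (mul_smul s g a).symm
    rw [e1]
    show _ = Polynomial.C ((s * g) • a) *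
      ∏ g' ∈ Finset.univ.erase (s * g), (Polynomial.X - Polynomial.C (g' • b))
    congr 1
    refine Finset.prod_equiv (Equiv.mulLeft s) ?_ ?_
    · intro g'
      simp only [Finset.mem_erase, Finset.mem_univ, and_true, Equiv.coe_mulLeft]
      exact ⟨fun h1 h2 => h1 (mul_left_cancel h2), fun h1 h2 => h1 (by rw [h2])⟩
    · intro g' _
      rw [Polynomial.map_sub, Polynomial.map_X, Polynomial.map_C]
      show Polynomial.X - Polynomial.C (s • (g' • b)) = Polynomial.X - Polynomial.C ((s * g') • b)
      rw [mul_smul])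
  set F1 : A := ∏ g' ∈ (Finset.univ : Finset G).erase 1, (b - g' • b) with hF1
  have hF1Q : F1 ∉ Q := by
    rw [hF1]
    intro h1
    obtain ⟨g', hg', h2⟩ := hQ.prod_mem_iff.mp h1
    rw [Finset.mem_erase] at hg'
    apply hb g' hg'.1
    rw [← neg_sub]
    exact neg_mem h2
  have hfsplit : f = (Polynomial.X - Polynomial.C b) *
      ∏ g' ∈ (Finset.univ : Finset G).erase 1, (Polynomial.X - Polynomial.C (g' • b)) := by
    rw [hf, ← Finset.mul_prod_erase Finset.univ _ (Finset.mem_univ (1 : G)), one_smul]
  have hfb : Polynomial.aeval b f0 = 0 := by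
    rw [Polynomial.aeval_def, ← Polynomial.eval_map, hf0, hfsplit, Polynomial.eval_mul]
    simp
  have hf'b : Polynomial.aeval b (Polynomial.derivative f0) = F1 := by
    rw [Polynomial.aeval_def, ← Polynomial.eval_map, ← Polynomial.derivative_map, hf0, hfsplit,
      Polynomial.derivative_mul, Polynomial.eval_add, Polynomial.eval_mul, Polynomial.eval_mul,
      Polynomial.eval_prod]
    simp [hF1]
  have hhb : Polynomial.aeval b h0 = a * F1 := by
    rw [Polynomial.aeval_def, ← Polynomial.eval_map, hh0, hh, Polynomial.eval_finsetSum]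
    rw [Finset.sum_eq_single (1 : G)]
    · rw [one_smul, Polynomial.eval_mul, Polynomial.eval_C, Polynomial.eval_prod]
      simp [hF1]
    · intro g _ hg
      rw [Polynomial.eval_mul, Polynomial.eval_prod]
      rw [Finset.prod_eq_zero (i := (1 : G))]
      · rw [mul_zero]
      · rw [Finset.mem_erase]
        exact ⟨Ne.symm hg, Finset.mem_univ _⟩
      · rw [one_smul]
        simp
    · intro h1
      exact absurd (Finset.mem_univ _) h1
  have hF1ne : algebraMap A K F1 ≠ 0 := ETC_ne K hF1Q
  have hdiv : ∀ ω : Derivation k K K → K, algebraMap A K F1 • ω ∈ Ω → ω ∈ Ω := by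
    intro ω hω
    have h1 := hsm _ (ETC_invO hQ hF1Q) _ hω
    rwa [smul_smul, inv_mul_cancel₀ hF1ne, one_smul] at h1
  have hb' : δ (algebraMap A K b) ∈ Ω := by
    apply hdiv
    have h1 := hchain f0
    rw [hfb, hf'b] at h1
    have h2 : δ (algebraMap A K 0) = 0 := by
      funext D
      show D (algebraMap A K 0) = 0
      rw [map_zero, map_zero]
    rw [h2, zero_sub] at h1
    have h3 := Ω.neg_mem h1
    rwa [neg_neg] at h3
  have hpoly : ∀ p : Polynomial R, δ (algebraMap A K (Polynomial.aeval b p)) ∈ Ω := by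
    intro p
    have h1 := Ω.add_mem (hchain p)
      (hsm _ (ETC_memO hQ (Polynomial.aeval b (Polynomial.derivative p))) _ hb')
    rwa [sub_add_cancel] at h1
  have haΩ : δ (algebraMap A K a) ∈ Ω := by
    apply hdiv
    have h1 := hpoly h0
    rw [hhb, map_mul, hδmul] at h1
    have h2 := hpoly (Polynomial.derivative f0)
    rw [hf'b] at h2
    have h3 := hsm _ (ETC_memO hQ a) _ h2
    have h4 := Ω.sub_mem h1 h3
    rwa [add_sub_cancel_left] at h4
  obtain ⟨N, o, r, hr⟩ := Submodule.mem_span_set'.mp haΩ
  choose r' hr' using fun i => (r i).2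
  refine ⟨N, fun i => (o i : K), r', fun i => (o i).2, fun D => ?_⟩
  have h1 := congrFun hr D
  rw [Finset.sum_apply] at h1
  have h2 : D (algebraMap A K a) = ∑ i, (o i • ((r i : Derivation k K K → K))) D := h1.symm
  rw [h2]
  refine Finset.sum_congr rfl fun i _ => ?_
  rw [← hr' i]
  rfl

end Pool.Agent.QS
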