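import Pool.Agent.helper51.QS.SpecB

/-!
# Project qs (MP_74cfa5_ag), row UFL: the local ring at a point with a Taylor expansion is factorial
-/

set_option autoImplicit false

namespace Pool.Agent.QS

open Pool.Agent.PC MvPolynomial

universe u

/-- approximation of a power series by a polynomial in the coordinates -/
theorem UFL_approx {k A : Type u} [Field k] [CommRing A] [Algebra k A] {n : ℕ} {m : Ideal A}
    {y : Fin n → A} {φ : A →ₐ[k] MvPowerSeries (Fin n) k} (hT : Taylor m y φ)
    (g : MvPowerSeries (Fin n) k) (N : ℕ) :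
    ∃ c : A, ∀ α : Fin n →₀ ℕ, α.degree < N → MvPowerSeries.coeff α (φ c) = MvPowerSeries.coeff α g := by
  set s : Finset (Fin n →₀ ℕ) := Finset.Iic (Finsupp.equivFunOnFinite.symm fun _ => N) with hs
  set p : MvPolynomial (Fin n) k := MvPowerSeries.truncFinset k s g with hp
  refine ⟨aeval y p, fun α hα => ?_⟩
  have h1 : φ (aeval y p) = (p : MvPowerSeries (Fin n) k) := by
    have h2 : φ.comp (aeval y) = MvPolynomial.coeToMvPowerSeries.algHom k := by
      apply MvPolynomial.algHom_ext
      intro i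
      rw [AlgHom.comp_apply, aeval_X, hT.1 i, coeToMvPowerSeries.algHom_apply, coe_X]
      simp
    have h3 := congrArg (fun f => f p) h2
    simp only [AlgHom.comp_apply, coeToMvPowerSeries.algHom_apply] at h3
    rw [h3]
    simp
  rw [h1, MvPolynomial.coeff_coe, hp, MvPowerSeries.coeff_truncFinset_of_mem]
  rw [hs, Finset.mem_Iic]
  intro i
  have h4 : α i ≤ α.degree := Finsupp.le_degree i α
  have h5 : (Finsupp.equivFunOnFinite.symm fun _ : Fin n => N) i = N := rfl
  rw [h5]
  omega

/-- elements outside `m` become units -/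
theorem UFL_unit {k A : Type u} [Field k] [CommRing A] [Algebra k A] {n : ℕ} {m : Ideal A}
    {y : Fin n → A} {φ : A →ₐ[k] MvPowerSeries (Fin n) k} (hT : Taylor m y φ) {s : A} (hs : s ∉ m) :
    IsUnit (φ s) := by
  rw [MvPowerSeries.isUnit_iff_constantCoeff, isUnit_iff_ne_zero]
  intro h
  apply hs
  have h1 := (hT.2 1 s).mpr (fun α hα => by
    have h2 : α = 0 := by
      have h3 : α.degree = 0 := by omega
      exact (Finsupp.degree_eq_zero_iff α).mp h3
    rw [h2, MvPowerSeries.coeff_zero_eq_constantCoeff]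
    exact h)
  rwa [pow_one] at h1

theorem UFL_inj {k A : Type u} [Field k] [CommRing A] [IsDomain A] [IsNoetherianRing A] [Algebra k A]
    {n : ℕ} {m : Ideal A} (hm : m ≠ ⊤)
    {y : Fin n → A} {φ : A →ₐ[k] MvPowerSeries (Fin n) k} (hT : Taylor m y φ) {a : A} (ha : φ a = 0) :
    a = 0 := by
  have h1 : a ∈ (⨅ i : ℕ, m ^ i : Ideal A) := by
    rw [Ideal.mem_iInf]
    intro N
    rw [hT.2 N a]
    intro α _
    rw [ha, map_zero]
  rw [Ideal.iInf_pow_eq_bot_of_isDomain m hm] at h1
  exact (Submodule.mem_bot A).mp h1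

/-- the main step: the ideals `(x : z)` are principal -/
theorem UFL_main (hFFL : FFL_stmt.{u}) {k A : Type u} [Field k] [CommRing A] [IsDomain A]
    [IsNoetherianRing A] [Algebra k A] {n : ℕ} {m : Ideal A} [m.IsMaximal] {y : Fin n → A}
    {φ : A →ₐ[k] MvPowerSeries (Fin n) k} (hT : Taylor m y φ)
    (hU : UniqueFactorizationMonoid (MvPowerSeries (Fin n) k)) {x : A} (hx : x ≠ 0) (z : A) :
    ∃ a : A, (∃ t : A, a * z = x * t) ∧
      ∀ b : A, Inn m (Ideal.span {x}) (z * b) → Inn m (Ideal.span {a}) b := by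
  have hmt : m ≠ ⊤ := Ideal.IsMaximal.ne_top inferInstance
  have hφx : φ x ≠ 0 := fun h => hx (UFL_inj hmt hT h)
  obtain ⟨γ, δ, e, hrel, hγ, hδ⟩ := UniqueFactorizationMonoid.exists_reduced_factors (φ x) hφx (φ z)
  have hγ0 : γ ≠ 0 := by
    rintro rfl
    rw [mul_zero] at hγ
    exact hφx hγ.symm
  have he0 : e ≠ 0 := by
    rintro rfl
    rw [zero_mul] at hγ
    exact hφx hγ.symm
  have hγz : γ * φ z = φ x * δ := by rw [← hγ, ← hδ]; ring
  -- the colon ideal in the power series ring
  have hcol : ∀ b : MvPowerSeries (Fin n) k, φ x ∣ φ z * b → γ ∣ b := by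
    intro b hb
    have h1 : e * γ ∣ e * (δ * b) := by
      rw [hγ, ← mul_assoc, hδ]
      exact hb
    have h2 : γ ∣ δ * b := (mul_dvd_mul_iff_left he0).mp h1
    exact hrel.dvd_of_dvd_mul_left h2
  have hC : ∀ b : A, Inn m (Ideal.span {x}) (z * b) → γ ∣ φ b := by
    intro b hb
    obtain ⟨s, hs, hsb⟩ := hb
    rw [Ideal.mem_span_singleton] at hsb
    obtain ⟨t, ht⟩ := hsb
    apply hcol
    have h1 : φ x ∣ φ s * (φ z * φ b) := by
      refine ⟨φ t, ?_⟩
      rw [← map_mul, ← map_mul, ht, map_mul]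
    exact (UFL_unit hT hs).dvd_mul_left.mp h1
  -- Artin - Rees
  obtain ⟨r, hr⟩ := Ideal.exists_pow_inf_eq_pow_smul m (Ideal.span {z} ⊔ Ideal.span {x} : Submodule A A)
  obtain ⟨α, hα⟩ : ∃ α, MvPowerSeries.coeff α γ ≠ 0 := by
    by_contra h
    push Not at h
    exact hγ0 (MvPowerSeries.ext fun α => by rw [h α, map_zero])
  set N : ℕ := r + α.degree + 1 with hN
  obtain ⟨cN, hcN⟩ := UFL_approx hT γ N
  obtain ⟨dN, hdN⟩ := UFL_approx hT δ N
  have hmem : cN * z - x * dN ∈ m ^ N := by
    rw [hT.2 N]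
    intro β hβ
    have h1 : φ (cN * z - x * dN) = (φ cN - γ) * φ z - φ x * (φ dN - δ) := by
      rw [map_sub, map_mul, map_mul]
      linear_combination hγz
    rw [h1, map_sub]
    have h2 : MvPowerSeries.coeff β ((φ cN - γ) * φ z) = 0 := by
      rw [MvPowerSeries.coeff_mul]
      refine Finset.sum_eq_zero fun p hp => ?_
      rw [Finset.HasAntidiagonal.mem_antidiagonal] at hp
      have h3 : p.1.degree < N := by
        have : p.1.degree ≤ β.degree := by
          rw [← hp, map_add]
          omega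
        omega
      rw [map_sub, hcN _ h3, sub_self, zero_mul]
    have h4 : MvPowerSeries.coeff β (φ x * (φ dN - δ)) = 0 := by
      rw [MvPowerSeries.coeff_mul]
      refine Finset.sum_eq_zero fun p hp => ?_
      rw [Finset.HasAntidiagonal.mem_antidiagonal] at hp
      have h3 : p.2.degree < N := by
        have : p.2.degree ≤ β.degree := by
          rw [← hp, map_add]
          omega
        omega
      rw [map_sub (MvPowerSeries.coeff p.2), hdN _ h3, sub_self, mul_zero]
    rw [h2, h4, sub_zero]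
  have hAR : cN * z - x * dN ∈ m ^ (N - r) * (Ideal.span {z} ⊔ Ideal.span {x}) := by
    have h1 : cN * z - x * dN ∈ (m ^ N • ⊤ ⊓ (Ideal.span {z} ⊔ Ideal.span {x}) : Submodule A A) := by
      refine ⟨?_, ?_⟩
      · rw [smul_eq_mul, Ideal.mul_top]
        exact hmem
      · refine Submodule.mem_sup.mpr ⟨cN * z, ?_, -(x * dN), ?_, by ring⟩
        · exact Ideal.mem_span_singleton.mpr (Dvd.intro_left cN rfl)
        · exact neg_mem (Ideal.mem_span_singleton.mpr (Dvd.intro dN rfl))
    rw [hr N (by omega)] at h1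
    exact Submodule.smul_mono le_rfl inf_le_right h1
  rw [Ideal.mul_sup] at hAR
  obtain ⟨u1, hu1, u2, hu2, hu⟩ := Submodule.mem_sup.mp hAR
  obtain ⟨lam, hlam, rfl⟩ := Ideal.mem_mul_span_singleton.mp hu1
  obtain ⟨mu, hmu, rfl⟩ := Ideal.mem_mul_span_singleton.mp hu2
  set a : A := cN - lam with ha
  have haz : a * z = x * (dN + mu) := by
    rw [ha]
    linear_combination -hu
  have hγa : γ ∣ φ a := by
    apply hC
    refine ⟨1, fun h => hmt (Ideal.eq_top_of_isUnit_mem m h isUnit_one), ?_⟩
    rw [one_mul, mul_comm, haz]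
    exact Ideal.mem_span_singleton.mpr (Dvd.intro _ rfl)
  obtain ⟨ρ, hρ⟩ := hγa
  have hρu : IsUnit ρ := by
    by_contra hnu
    have h1 : IsUnit (1 - ρ) := by
      rw [MvPowerSeries.isUnit_iff_constantCoeff, isUnit_iff_ne_zero] at hnu ⊢
      rw [not_not] at hnu
      rw [map_sub, map_one, hnu, sub_zero]
      exact one_ne_zero
    obtain ⟨v, hv⟩ := h1.exists_right_inv
    apply hα
    have h2 : γ = (γ - φ a) * v := by
      rw [hρ]
      linear_combination -γ * hv
    rw [h2, MvPowerSeries.coeff_mul]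
    refine Finset.sum_eq_zero fun p hp => ?_
    rw [Finset.HasAntidiagonal.mem_antidiagonal] at hp
    have h3 : p.1.degree ≤ α.degree := by
      rw [← hp, map_add]
      omega
    have h4 : MvPowerSeries.coeff p.1 (φ lam) = 0 := (hT.2 (N - r) lam).mp hlam _ (by omega)
    have h5 : MvPowerSeries.coeff p.1 (γ - φ a) = 0 := by
      rw [ha, map_sub φ, map_sub, map_sub, hcN _ (by omega), h4]
      ring
    rw [h5, zero_mul]
  refine ⟨a, ⟨_, haz⟩, fun b hb => ?_⟩
  apply hFFL k A n m y φ hT
  rw [Ideal.map_span, Set.image_singleton, Ideal.mem_span_singleton]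
  have h1 := hC b hb
  have h2 : φ a ∣ γ := by
    rw [hρ]
    exact (hρu.mul_right_dvd).mpr dvd_rfl
  exact h2.trans h1

theorem UFL (hFFL : FFL_stmt.{u}) : UFL_stmt.{u} := by
  intro k A _ _ _ _ _ n m _ y φ hT hU
  have hle : m.primeCompl ≤ nonZeroDivisors A := m.primeCompl_le_nonZeroDivisors
  have hdom : IsDomain (Localization.AtPrime m) := IsLocalization.isDomain_localization hle
  have hnoe : IsNoetherianRing (Localization.AtPrime m) :=
    IsLocalization.isNoetherianRing m.primeCompl _ inferInstance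
  have hinj : Function.Injective (algebraMap A (Localization.AtPrime m)) :=
    IsLocalization.injective _ hle
  have hunit : ∀ s : A, s ∉ m → IsUnit (algebraMap A (Localization.AtPrime m) s) := fun s hs =>
    IsLocalization.map_units (Localization.AtPrime m) (⟨s, hs⟩ : m.primeCompl)
  -- every element is associated to an element of `A`
  have hsurj : ∀ v : Localization.AtPrime m, ∃ a : A,
      Associated v (algebraMap A (Localization.AtPrime m) a) := by
    intro v
    obtain ⟨⟨a, s⟩, h⟩ := IsLocalization.surj m.primeCompl v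
    refine ⟨a, (hunit s s.2).unit, ?_⟩
    rw [IsUnit.unit_spec]
    exact h
  have hInn : ∀ a b : A, algebraMap A (Localization.AtPrime m) a ∣ algebraMap A _ b →
      Inn m (Ideal.span {a}) b := by
    rintro a b ⟨v, hv⟩
    obtain ⟨⟨t, s⟩, h⟩ := IsLocalization.surj m.primeCompl v
    refine ⟨s, s.2, Ideal.mem_span_singleton.mpr ⟨t, ?_⟩⟩
    apply hinj
    rw [map_mul, map_mul, hv, ← h]
    ring
  have hdvd : ∀ a b : A, Inn m (Ideal.span {a}) b →
      algebraMap A (Localization.AtPrime m) a ∣ algebraMap A _ b := by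
    rintro a b ⟨s, hs, hb⟩
    obtain ⟨t, ht⟩ := Ideal.mem_span_singleton.mp hb
    have h1 : algebraMap A (Localization.AtPrime m) a ∣ algebraMap A _ s * algebraMap A _ b := by
      refine ⟨algebraMap A _ t, ?_⟩
      rw [← map_mul, ht, map_mul]
    exact (hunit s hs).dvd_mul_left.mp h1
  have hprime : ∀ v : Localization.AtPrime m, Irreducible v → Prime v := by
    intro v hv
    obtain ⟨x, hx⟩ := hsurj v
    have hxi : Irreducible (algebraMap A (Localization.AtPrime m) x) := hx.irreducible hv
    refine hx.symm.prime ?_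
    have hx0 : x ≠ 0 := by
      rintro rfl
      rw [map_zero] at hxi
      exact hxi.ne_zero rfl
    refine ⟨hxi.ne_zero, hxi.not_isUnit, ?_⟩
    intro p q hpq
    obtain ⟨z, hz⟩ := hsurj p
    obtain ⟨w, hw⟩ := hsurj q
    rw [hz.dvd_iff_dvd_right, hw.dvd_iff_dvd_right]
    have hzw : algebraMap A (Localization.AtPrime m) x ∣ algebraMap A _ (z * w) := by
      rw [map_mul, ← (hz.mul_mul hw).dvd_iff_dvd_right]
      exact hpq
    by_cases hxz : algebraMap A (Localization.AtPrime m) x ∣ algebraMap A _ z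
    · exact Or.inl hxz
    · right
      obtain ⟨a, ⟨t, hat⟩, hb⟩ := UFL_main hFFL hT hU hx0 z
      have h1 : algebraMap A (Localization.AtPrime m) a ∣ algebraMap A _ x := by
        refine hdvd a x (hb x ?_)
        refine ⟨1, fun h => (Ideal.IsMaximal.ne_top inferInstance)
          (Ideal.eq_top_of_isUnit_mem m h isUnit_one), ?_⟩
        rw [one_mul]
        exact Ideal.mem_span_singleton.mpr (Dvd.intro_left z rfl)
      have h2 : ¬ IsUnit (algebraMap A (Localization.AtPrime m) a) := by
        intro hu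
        apply hxz
        have h3 : algebraMap A (Localization.AtPrime m) x ∣ algebraMap A _ a * algebraMap A _ z := by
          refine ⟨algebraMap A _ t, ?_⟩
          rw [← map_mul, hat, map_mul]
        exact hu.dvd_mul_left.mp h3
      have h3 : algebraMap A (Localization.AtPrime m) x ∣ algebraMap A _ a := by
        obtain ⟨d, hd⟩ := h1
        rcases hxi.isUnit_or_isUnit hd with h4 | h4
        · exact absurd h4 h2
        · rw [hd]
          exact (h4.mul_right_dvd).mpr dvd_rfl
      exact h3.trans (hdvd a w (hb w (hInn x (z * w) hzw)))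
  exact { irreducible_iff_prime := fun {v} => ⟨hprime v, Prime.irreducible⟩ }

end Pool.Agent.QS
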